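import Pool.Agent.H20.AB.Bas

/-!
# AB4, rows TOP and JAC
-/

set_option autoImplicit false
set_option linter.all false

namespace Pool.AB4

open AlgebraicGeometry CategoryTheory Order Filter Topology

variable {Y : Scheme.{0}} [IsIntegral Y] [IsLocallyNoetherian Y] {s : Y ⟶ Spec (.of ℂ)}

/-- ROW TOP: a closed set containing infinitely many prime divisors is everything. -/
theorem infinite_primes (hN : Numbers s) (hY : CompactSpace Y) {Z : Set Y} (hZ : IsClosed Z)
    (h : {p : Pr Y | p.1 ∈ Z}.Infinite) : genericPoint Y ∈ Z := by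
  by_contra hg
  haveI : IsNoetherian Y := {}
  obtain ⟨S, hSf, hSc, hSi, hSU⟩ :=
    TopologicalSpace.NoetherianSpace.exists_finite_set_isClosed_irreducible hZ
  -- the prime divisors in `Z` are generic points of the sets in `S`
  apply h
  have key : ∀ p : Pr Y, p.1 ∈ Z → ∃ t ∈ S, IsGenericPoint p.1 t := by
    intro p hp
    rw [hSU] at hp
    obtain ⟨t, ht, hpt⟩ := hp
    obtain ⟨x, hx⟩ := QuasiSober.sober (hSi t ht) (hSc t ht)
    have hxp : x ⤳ p.1 := hx.specializes hpt
    by_cases hxe : x = p.1
    · exact ⟨t, ht, hxe ▸ hx⟩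
    exfalso
    have hxZ : x ∈ Z := by
      rw [hSU]; exact ⟨t, ht, hx.mem⟩
    have hxg : x ≠ genericPoint Y := fun h => hg (h ▸ hxZ)
    have h1 : p.1 < x := lt_iff_spec.2 ⟨hxp, fun h => hxe h.symm⟩
    have h2 : x < genericPoint Y := lt_iff_spec.2 ⟨genericPoint_specializes x, hxg⟩
    have h3 : (1 : ℕ∞) ≤ coheight x := by
      rw [ENat.one_le_iff_ne_zero]
      intro h0
      exact hxg (eq_generic_of_coheight h0)
    have h4 : coheight x + 1 ≤ coheight p.1 := coheight_add_one_le h1
    rw [p.2] at h4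
    have h5 : (1 : ℕ∞) + 1 ≤ 1 := (add_le_add_left h3 1).trans h4
    exact absurd h5 (by decide)
  choose! f hf using key
  apply Set.Finite.of_injOn (f := f) (t := S) _ _ hSf
  · intro p hp; exact (hf p hp).1
  · intro p hp q hq hpq
    apply Subtype.ext
    have h1 := (hf p hp).2
    have h2 := (hf q hq).2
    rw [hpq] at h1
    exact h1.eq h2

/-- ROW JAC: closed points are dense. -/
theorem closed_points (hN : Numbers s) (hs : LocallyOfFiniteType s) {Z : Set Y} (hZ : IsClosed Z)
    {w : Y} (h : ∀ x : Pt Y, w ⤳ x.1 → x.1 ∈ Z) : w ∈ Z := by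
  haveI : JacobsonSpace Y := LocallyOfFiniteType.jacobsonSpace s
  have h1 := JacobsonSpace.closure_inter_closedPoints_eq_closure (X := Y)
    (S := closure {w}) (isClosed_closure.isLocallyClosed)
  have h2 : closure {w} ∩ closedPoints Y ⊆ Z := by
    rintro x ⟨hx, hc⟩
    have hwx : w ⤳ x := specializes_iff_mem_closure.mpr hx
    have h0 : height x = 0 := by
      rw [height_eq_zero]
      intro y hy
      have hy' : x ⤳ y := hy
      have h3 : y ∈ ({x} : Set Y) := by
        have h4 := specializes_iff_mem_closure.mp hy'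
        rwa [(mem_closedPoints_iff.mp hc).closure_eq] at h4
      rw [Set.mem_singleton_iff.mp h3]
    exact h ⟨x, h0⟩ hwx
  have h3 : closure (closure {w} ∩ closedPoints Y) ⊆ Z := hZ.closure_subset_iff.mpr h2
  rw [h1] at h3
  exact h3 (subset_closure (subset_closure rfl))

end Pool.AB4
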